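import Pool.Agent.H23.UVS.Space

/-!
# The growth rate of a family of forms
-/

open Module MvPolynomial Filter Topology

namespace Pool.Agent.H23.UVS

open Pool.Agent.H14.RF Pool.Agent.H2.WG

universe u

variable {k : Type u} [Field k] {σ : Type} [Fintype σ]

section bound

/-- a product functional from its values -/
noncomputable def lam (k : Type u) [Field k] (σ : Type) (c N : ℕ) :
    ((Fin N → Exps σ c) → k) →ₗ[k] (MvPolynomial (Fin N × σ) k →ₗ[k] k) := by
  classical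
  exact
  { toFun := fun S => (basisMonomials (Fin N × σ) k).constr k fun e =>
      if h : ∀ j, (e.curry j).degree = c then S (fun j => ⟨e.curry j, h j⟩) else 0
    map_add' := fun S S' => by
      rw [← map_add]
      congr 1
      funext e
      simp only [Pi.add_apply]
      split_ifs <;> simp
    map_smul' := fun t S => by
      rw [RingHom.id_apply, ← map_smul]
      congr 1
      funext e
      simp only [Pi.smul_apply]
      split_ifs <;> simp }

omit [Fintype σ] in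
theorem lam_monomial (c N : ℕ) (S : (Fin N → Exps σ c) → k) (e : (Fin N × σ) →₀ ℕ)
    [Decidable (∀ j, (e.curry j).degree = c)] :
    lam k σ c N S (monomial e 1) =
      if h : ∀ j, (e.curry j).degree = c then S (fun j => ⟨e.curry j, h j⟩) else 0 := by
  classical
  have h := (basisMonomials (Fin N × σ) k).constr_basis k (fun e =>
      if h : ∀ j, (e.curry j).degree = c then S (fun j => ⟨e.curry j, h j⟩) else 0) e
  rw [coe_basisMonomials] at h
  refine Eq.trans h ?_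
  by_cases h' : ∀ j, (e.curry j).degree = c
  · rw [dif_pos h', dif_pos h']
  · rw [dif_neg h', dif_neg h']

omit [Fintype σ] in
theorem pw_eq_lam {c : ℕ} {φ : MvPolynomial σ k →ₗ[k] k} (hφ : IsForm φ c) (N : ℕ) :
    pw φ (Fin N) = lam k σ c N (Mpow N fun m : Exps σ c => φ (monomial m.1 1)) := by
  classical
  refine MvPolynomial.linearMap_ext fun e => LinearMap.ext_ring ?_
  simp only [LinearMap.coe_comp, Function.comp_apply]
  rw [pw_monomial, lam_monomial]
  by_cases h : ∀ j, (e.curry j).degree = c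
  · rw [dif_pos h]
    rfl
  · rw [dif_neg h]
    push Not at h
    obtain ⟨j, hj⟩ := h
    exact Finset.prod_eq_zero (Finset.mem_univ j) (hφ _ hj)

/-- the polynomial bound for the dimension of the span of the products -/
noncomputable def KD (σ : Type) (c : ℕ) : ℕ := Nat.card (Exps σ c)

theorem exists_letters {c : ℕ} {V : Set (MvPolynomial σ k →ₗ[k] k)} (hV : ∀ φ ∈ V, IsForm φ c)
    (N : ℕ) : ∃ (p : ℕ) (G : Fin p → (MvPolynomial σ k →ₗ[k] k)), p ≤ (N + 1) ^ KD σ c ∧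
      (∀ j, G j ∈ V) ∧
      ∀ φ ∈ V, pw φ (Fin N) ∈ Submodule.span k (Set.range fun j => pw (G j) (Fin N)) := by
  classical
  have := finite_exps σ c
  have : Fintype (Exps σ c) := Fintype.ofFinite _
  obtain ⟨b, hb, hspan, hli⟩ := exists_linearIndependent k (prods V N)
  let U : Submodule k (MvPolynomial (Fin N × σ) k →ₗ[k] k) :=
    Submodule.span k (Set.range fun e => lam k σ c N (chi k (Exps σ c) N e))
  have hbU : ∀ v : b, (v : MvPolynomial (Fin N × σ) k →ₗ[k] k) ∈ U := by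
    intro v
    obtain ⟨φ, hφ, hφv⟩ := hb v.2
    rw [← hφv]
    show pw φ (Fin N) ∈ U
    rw [pw_eq_lam (hV φ hφ)]
    have h1 := Mpow_mem_chi N fun m : Exps σ c => φ (monomial m.1 1)
    have h2 := Submodule.mem_map_of_mem (f := lam k σ c N) h1
    rw [Submodule.map_span, ← Set.range_comp] at h2
    exact h2
  have hli' : LinearIndependent k (fun v : b => (⟨v, hbU v⟩ : U)) := by
    apply LinearIndependent.of_comp U.subtype
    exact hli
  have hfinU : Module.Finite k U := FiniteDimensional.span_of_finite k (Set.finite_range _)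
  have : Fintype b := @Fintype.ofFinite _ hli'.finite
  have hcard : Fintype.card b ≤ (N + 1) ^ KD σ c := by
    refine hli'.fintype_card_le_finrank.trans ?_
    have h1 := finrank_range_le_card (R := k) fun e => lam k σ c N (chi k (Exps σ c) N e)
    refine h1.trans (le_of_eq ?_)
    rw [Fintype.card_fun, Fintype.card_fin, KD, Nat.card_eq_fintype_card]
  have hpre : ∀ v : b, ∃ φ ∈ V, pw φ (Fin N) = v := fun v => hb v.2
  choose g hgV hg using hpre
  let E := (Fintype.equivFin b).symm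
  refine ⟨Fintype.card b, fun j => g (E j), hcard, fun j => hgV _, fun φ hφ => ?_⟩
  have h1 : (Set.range fun j => pw (g (E j)) (Fin N)) = b := by
    ext v
    constructor
    · rintro ⟨j, rfl⟩
      show pw (g (E j)) (Fin N) ∈ b
      rw [hg]
      exact (E j).2
    · intro hv
      refine ⟨E.symm ⟨v, hv⟩, ?_⟩
      show pw (g (E (E.symm ⟨v, hv⟩))) (Fin N) = v
      rw [Equiv.apply_symm_apply, hg]
  rw [h1, hspan]
  exact Submodule.subset_span ⟨φ, hφ, rfl⟩

end bound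

section points

/-- all functionals have a common point set -/
theorem exists_hasW_univ [Infinite k] (τ : Type) [Fintype τ] (L : ℕ) :
    ∃ r, HasW (Set.univ : Set (MvPolynomial τ k →ₗ[k] k)) L r := by
  classical
  have := finite_exps τ L
  have : Fintype (Exps τ L) := Fintype.ofFinite _
  have h1 := (HasW.of_family (fun e : Exps τ L => (basisMonomials τ k).coord e.1) (L := L) _
    fun e => hasWaring_rank _ L).span
  obtain ⟨a, ha⟩ := hasW_iff.mp h1
  refine ⟨_, hasW_iff.mpr ⟨a, fun ψ _ => ?_⟩⟩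
  obtain ⟨co, hco⟩ := ha (∑ e : Exps τ L, ψ (monomial e.1 1) • (basisMonomials τ k).coord e.1)
    (Submodule.sum_mem _ fun e _ => Submodule.smul_mem _ _ (Submodule.subset_span ⟨e, rfl⟩))
  refine ⟨co, fun e he => ?_⟩
  rw [← hco e he, LinearMap.sum_apply, Finset.sum_eq_single (⟨e, he⟩ : Exps τ L)]
  · rw [LinearMap.smul_apply, Basis.coord_apply]
    have h2 : (monomial e 1 : MvPolynomial τ k) = basisMonomials τ k e := by
      rw [coe_basisMonomials]
    rw [h2, Basis.repr_self, Finsupp.single_eq_same, smul_eq_mul, mul_one]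
  · intro e' _ hne
    rw [LinearMap.smul_apply, Basis.coord_apply]
    have h2 : (monomial e 1 : MvPolynomial τ k) = basisMonomials τ k e := by
      rw [coe_basisMonomials]
    rw [h2, Basis.repr_self, Finsupp.single_eq_of_ne, smul_zero]
    intro h3
    exact hne (Subtype.ext h3)
  · intro h; exact absurd (Finset.mem_univ _) h

/-- The least number of points which serve for all `N`-fold products of members of `V`. -/
noncomputable def WS (V : Set (MvPolynomial σ k →ₗ[k] k)) (c N : ℕ) : ℕ :=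
  sInf {r | HasW (prods V N) (c * N) r}

theorem hasW_WS [Infinite k] (V : Set (MvPolynomial σ k →ₗ[k] k)) (c N : ℕ) :
    HasW (prods V N) (c * N) (WS V c N) := by
  obtain ⟨r, hr⟩ := exists_hasW_univ (k := k) (Fin N × σ) (c * N)
  exact Nat.sInf_mem (s := {r | HasW (prods V N) (c * N) r}) ⟨r, hr.subset (Set.subset_univ _)⟩

omit [Fintype σ] in
theorem WS_le {V : Set (MvPolynomial σ k →ₗ[k] k)} {c N r : ℕ}
    (h : HasW (prods V N) (c * N) r) : WS V c N ≤ r := Nat.sInf_le h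

theorem Wn_le_WS [Infinite k] {V : Set (MvPolynomial σ k →ₗ[k] k)} {φ} (hφ : φ ∈ V) (c N : ℕ) :
    Wn φ c N ≤ WS V c N :=
  waringRank_le ((hasW_WS V c N).waring ⟨φ, hφ, rfl⟩)

theorem hasW_pred {V : Set (MvPolynomial σ k →ₗ[k] k)} {c : ℕ}
    (hV : ∀ φ ∈ V, IsForm φ c) (hV0 : ∀ φ ∈ V, φ ≠ 0) {n r : ℕ}
    (h : HasW (prods V (n + 1)) (c * (n + 1)) r) : HasW (prods V n) (c * n) r := by
  classical
  obtain ⟨a, h1⟩ := hasW_iff.mp h
  refine hasW_iff.mpr ⟨fun s q => a s (q.1.succ, q.2), ?_⟩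
  rintro _ ⟨φ, hφV, rfl⟩
  obtain ⟨co, h1⟩ := h1 _ ⟨φ, hφV, rfl⟩
  have hφ := hV φ hφV
  obtain ⟨e₀, he₀⟩ : ∃ e₀ : σ →₀ ℕ, φ (monomial e₀ 1) ≠ 0 := by
    by_contra hne
    push Not at hne
    apply hV0 φ hφV
    refine MvPolynomial.linearMap_ext fun e => LinearMap.ext_ring ?_
    simpa using hne e
  have hdeg : e₀.degree = c := by
    by_contra h2
    exact he₀ (hφ _ h2)
  refine ⟨fun s => co s * (∏ i, a s (0, i) ^ e₀ i) * (φ (monomial e₀ 1))⁻¹, fun e he => ?_⟩
  let e' : (Fin (n + 1) × σ) →₀ ℕ := Finsupp.equivFunOnFinite.symm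
    fun q => Fin.cases (e₀ q.2) (fun j => e (j, q.2)) q.1
  have h0 : e'.curry 0 = e₀ := by
    ext i
    rw [Finsupp.curry_apply]
    rfl
  have hs : ∀ j : Fin n, e'.curry j.succ = e.curry j := by
    intro j
    ext i
    rw [Finsupp.curry_apply, Finsupp.curry_apply]
    rfl
  have hdeg' : e'.degree = c * (n + 1) := by
    rw [degree_curry, Fin.sum_univ_succ, h0, hdeg]
    simp only [hs]
    rw [← degree_curry, he]
    ring
  have h2 := h1 e' hdeg'
  change pw φ (Fin (n + 1)) (monomial e' 1) = _ at h2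
  rw [pw_monomial, Fin.prod_univ_succ, h0] at h2
  simp only [hs] at h2
  rw [← pw_monomial] at h2
  have h3 : ∀ s, (e'.prod fun q m => a s q ^ m) =
      (∏ i, a s (0, i) ^ e₀ i) * e.prod fun q m => a s (q.1.succ, q.2) ^ m := by
    intro s
    rw [Finsupp.prod_fintype _ _ fun q => pow_zero _, Finsupp.prod_fintype _ _ fun q => pow_zero _,
      Fintype.prod_prod_type, Fin.prod_univ_succ, Fintype.prod_prod_type]
    rfl
  have h6 : pw φ (Fin n) (monomial e 1) =
      (φ (monomial e₀ 1))⁻¹ * ∑ s, co s * e'.prod fun q m => a s q ^ m := by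
    rw [← h2]
    field_simp
  show pw φ (Fin n) (monomial e 1) = _
  rw [h6, Finset.mul_sum]
  refine Finset.sum_congr rfl fun s _ => ?_
  rw [h3]
  ring

theorem WS_mono [Infinite k] {V : Set (MvPolynomial σ k →ₗ[k] k)} {c : ℕ}
    (hV : ∀ φ ∈ V, IsForm φ c) (hV0 : ∀ φ ∈ V, φ ≠ 0) {n n' : ℕ} (hn : n ≤ n') :
    WS V c n ≤ WS V c n' := by
  refine WS_le ?_
  have h := hasW_WS V c n'
  revert h
  generalize WS V c n' = r
  intro h
  induction n', hn using Nat.le_induction with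
  | base => exact h
  | succ m _ ih => exact ih (hasW_pred hV hV0 h)

end points

section rate

/-- an exponential bound for all `n` -/
theorem exists_const [Infinite k] {φ : MvPolynomial σ k →ₗ[k] k} {c : ℕ} (hφ : IsForm φ c)
    (hφ0 : φ ≠ 0) {ρ : ℝ} (hρ : gr φ c < ρ) :
    ∃ C : ℝ, 1 ≤ C ∧ ∀ n, (Wn φ c n : ℝ) ≤ C * ρ ^ n := by
  have hg : 1 ≤ gr φ c := (one_le_finrank hφ hφ0).trans (finrank_le_gr φ c)
  have hρ0 : 0 < ρ := by linarith
  obtain ⟨N₀, hN₀⟩ := (Wn_le_pow hφ hφ0 hρ).exists_forall_of_atTop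
  have hpos : 0 ≤ ∑ i ∈ Finset.range N₀, (Wn φ c i : ℝ) / ρ ^ i :=
    Finset.sum_nonneg fun i _ => by positivity
  refine ⟨1 + ∑ i ∈ Finset.range N₀, (Wn φ c i : ℝ) / ρ ^ i, by linarith, fun n => ?_⟩
  have hρn : 0 < ρ ^ n := by positivity
  rcases Nat.lt_or_ge n N₀ with hn | hn
  · have h1 : (Wn φ c n : ℝ) / ρ ^ n ≤ ∑ i ∈ Finset.range N₀, (Wn φ c i : ℝ) / ρ ^ i :=
      Finset.single_le_sum (f := fun i => (Wn φ c i : ℝ) / ρ ^ i) (fun i _ => by positivity)
        (Finset.mem_range.mpr hn)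
    have h2 : (Wn φ c n : ℝ) = (Wn φ c n : ℝ) / ρ ^ n * ρ ^ n := by field_simp
    rw [h2]
    apply mul_le_mul_of_nonneg_right _ hρn.le
    linarith
  · have h1 := hN₀ n hn
    nlinarith

theorem gr_pow_le_Wn [Infinite k] {φ : MvPolynomial σ k →ₗ[k] k} {c : ℕ} (hφ : IsForm φ c)
    {N : ℕ} (hN : 1 ≤ N) : gr φ c ^ N ≤ (c * N + 1 : ℝ) ^ 2 * Wn φ c N := by
  have h3 : (Dn φ N : ℝ) ≤ (c * N + 1) * Wn φ c N := by exact_mod_cast (law_upper hφ N).2
  calc gr φ c ^ N ≤ (c * N + 1 : ℝ) * Dn φ N := gr_pow_le φ c hN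
    _ ≤ (c * N + 1 : ℝ) * ((c * N + 1) * Wn φ c N) := by gcongr
    _ = _ := by ring

/-- the supremum of the growth rates -/
noncomputable def grS (V : Set (MvPolynomial σ k →ₗ[k] k)) (c : ℕ) : ℝ :=
  sSup ((fun φ => gr φ c) '' V)

theorem bddAbove_gr [Infinite k] {V : Set (MvPolynomial σ k →ₗ[k] k)} {c : ℕ}
    (hV : ∀ φ ∈ V, IsForm φ c) : BddAbove ((fun φ => gr φ c) '' V) := by
  refine ⟨(c * 1 + 1 : ℝ) ^ 2 * WS V c 1, ?_⟩
  rintro _ ⟨φ, hφ, rfl⟩
  have h1 := gr_pow_le_Wn (hV φ hφ) le_rfl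
  rw [pow_one] at h1
  push_cast at h1
  refine h1.trans (mul_le_mul_of_nonneg_left ?_ (by positivity))
  exact_mod_cast Wn_le_WS hφ c 1

theorem gr_le_grS [Infinite k] {V : Set (MvPolynomial σ k →ₗ[k] k)} {c : ℕ}
    (hV : ∀ φ ∈ V, IsForm φ c) {φ} (hφ : φ ∈ V) : gr φ c ≤ grS V c :=
  le_csSup (bddAbove_gr hV) ⟨φ, hφ, rfl⟩

theorem one_le_grS [Infinite k] {V : Set (MvPolynomial σ k →ₗ[k] k)} {c : ℕ}
    (hV : ∀ φ ∈ V, IsForm φ c) (hV0 : ∀ φ ∈ V, φ ≠ 0) (hne : V.Nonempty) : 1 ≤ grS V c := by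
  obtain ⟨φ, hφ⟩ := hne
  exact ((one_le_finrank (hV φ hφ) (hV0 φ hφ)).trans (finrank_le_gr φ c)).trans (gr_le_grS hV hφ)

/-- the lower bound -/
theorem grS_pow_le [Infinite k] {V : Set (MvPolynomial σ k →ₗ[k] k)} {c : ℕ}
    (hV : ∀ φ ∈ V, IsForm φ c) (hV0 : ∀ φ ∈ V, φ ≠ 0) (hne : V.Nonempty) {N : ℕ} (hN : 1 ≤ N) :
    grS V c ^ N ≤ (c * N + 1 : ℝ) ^ 2 * WS V c N := by
  have hx : (0 : ℝ) ≤ (c * N + 1 : ℝ) ^ 2 * WS V c N := by positivity
  have h1 : grS V c ≤ ((c * N + 1 : ℝ) ^ 2 * WS V c N) ^ (1 / (N : ℝ)) := by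
    refine csSup_le (hne.image _) ?_
    rintro _ ⟨φ, hφ, rfl⟩
    have h0 : 0 ≤ gr φ c := gr_nonneg φ c
    refine le_rpow_root hN h0 ((gr_pow_le_Wn (hV φ hφ) hN).trans ?_)
    refine mul_le_mul_of_nonneg_left ?_ (by positivity)
    exact_mod_cast Wn_le_WS hφ c N
  have h0 : 0 ≤ grS V c := zero_le_one.trans (one_le_grS hV hV0 hne)
  calc grS V c ^ N ≤ (((c * N + 1 : ℝ) ^ 2 * WS V c N) ^ (1 / (N : ℝ))) ^ N :=
        pow_le_pow_left₀ h0 h1 N
    _ = _ := rpow_root_pow hN hx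

/-- the upper bound -/
theorem WS_le_pow [Infinite k] {V : Set (MvPolynomial σ k →ₗ[k] k)} {c : ℕ}
    (hV : ∀ φ ∈ V, IsForm φ c) (hV0 : ∀ φ ∈ V, φ ≠ 0) (hne : V.Nonempty) {ρ : ℝ}
    (hρ : grS V c < ρ) : ∀ᶠ n : ℕ in atTop, (WS V c n : ℝ) ≤ ρ ^ n := by
  have hg := one_le_grS hV hV0 hne
  set ρ₁ : ℝ := grS V c + (ρ - grS V c) / 3 with hρ₁
  set ρ₂ : ℝ := grS V c + 2 * (ρ - grS V c) / 3 with hρ₂
  have h01 : grS V c < ρ₁ := by rw [hρ₁]; linarith
  have h12 : ρ₁ < ρ₂ := by rw [hρ₁, hρ₂]; linarith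
  have h23 : ρ₂ < ρ := by rw [hρ₂]; linarith
  have hρ₁0 : 0 < ρ₁ := by linarith
  -- choose N
  obtain ⟨N, hN, hN1⟩ := ((eventually_poly_le hρ₁0 h12 1 1 (KD σ c)).and
    (eventually_ge_atTop 1)).exists
  obtain ⟨p, G, hp, hGV, hG⟩ := exists_letters hV N
  choose C hC1 hC using fun j => exists_const (hV _ (hGV j)) (hV0 _ (hGV j))
    (lt_of_le_of_lt (gr_le_grS hV (hGV j)) h01)
  set C₀ : ℝ := 1 + ∑ j, C j with hC₀
  have hCj : ∀ j, C j ≤ C₀ := by
    intro j
    have h1 : C j ≤ ∑ j, C j := Finset.single_le_sum (f := C)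
      (fun j _ => zero_le_one.trans (hC1 j)) (Finset.mem_univ j)
    rw [hC₀]
    linarith
  have hC₀1 : 0 ≤ C₀ := by
    have : 0 ≤ ∑ j, C j := Finset.sum_nonneg fun j _ => zero_le_one.trans (hC1 j)
    rw [hC₀]
    linarith
  have hW : ∀ j n, (Wn (G j) c n : ℝ) ≤ C₀ * ρ₁ ^ n := fun j n =>
    (hC j n).trans (mul_le_mul_of_nonneg_right (hCj j) (by positivity))
  have hpN : (p : ℝ) * ρ₁ ^ N ≤ ρ₂ ^ N := by
    refine le_trans ?_ hN
    refine mul_le_mul_of_nonneg_right ?_ (by positivity)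
    calc (p : ℝ) ≤ (((N + 1) ^ KD σ c : ℕ) : ℝ) := by exact_mod_cast hp
      _ = _ := by push_cast; ring
  have hM : ∀ M : ℕ, (WS V c (M * N) : ℝ) ≤ (c * (M * N) + 1 : ℝ) ^ p * C₀ ^ p * ρ₂ ^ (M * N) := by
    intro M
    obtain ⟨r, hr, hr'⟩ := hasW_words G (fun j => hV _ (hGV j)) hW hG M
    have h1 : (WS V c (M * N) : ℝ) ≤ r := by exact_mod_cast WS_le hr
    refine h1.trans (hr'.trans ?_)
    calc (p : ℝ) ^ M * ((c * (M * N) + 1 : ℝ) ^ p * (C₀ ^ p * ρ₁ ^ (M * N)))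
        = (c * (M * N) + 1 : ℝ) ^ p * C₀ ^ p * ((p : ℝ) * ρ₁ ^ N) ^ M := by
          rw [mul_pow, ← pow_mul, mul_comm N M]; ring
      _ ≤ (c * (M * N) + 1 : ℝ) ^ p * C₀ ^ p * (ρ₂ ^ N) ^ M := by
          refine mul_le_mul_of_nonneg_left ?_ (by positivity)
          exact pow_le_pow_left₀ (by positivity) hpN M
      _ = _ := by rw [← pow_mul, mul_comm N M]
  have hρ₂1 : 1 ≤ ρ₂ := by linarith
  have hall : ∀ n : ℕ, (WS V c n : ℝ) ≤
      (C₀ ^ p * (c * N + 1 : ℝ) ^ p * ρ₂ ^ N) * (c * n + 1 : ℝ) ^ p * ρ₂ ^ n := by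
    intro n
    have hn : n ≤ (n / N + 1) * N := by
      have := Nat.div_add_mod n N
      have := Nat.mod_lt n (show 0 < N by omega)
      nlinarith
    have hn' : (n / N + 1) * N ≤ n + N := by
      have := Nat.div_mul_le_self n N
      nlinarith
    have h1 : (WS V c n : ℝ) ≤ WS V c ((n / N + 1) * N) := by
      exact_mod_cast WS_mono hV hV0 hn
    refine h1.trans ((hM _).trans ?_)
    have hcast : ((n / N + 1 : ℕ) : ℝ) * N ≤ n + N := by exact_mod_cast hn'
    have hc : (0 : ℝ) ≤ c := Nat.cast_nonneg c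
    have hNN : (0 : ℝ) ≤ N := Nat.cast_nonneg N
    have hnn : (0 : ℝ) ≤ n := Nat.cast_nonneg n
    have h2 : (c * (((n / N + 1 : ℕ) : ℝ) * N) + 1 : ℝ) ≤ (c * N + 1 : ℝ) * (c * n + 1) := by
      have h3 : (c : ℝ) * (((n / N + 1 : ℕ) : ℝ) * N) ≤ c * (n + N) :=
        mul_le_mul_of_nonneg_left hcast hc
      have h4 : (0 : ℝ) ≤ c * N * (c * n) := by positivity
      nlinarith
    have h5 : (c * (((n / N + 1 : ℕ) : ℝ) * N) + 1 : ℝ) ^ p ≤
        (c * N + 1 : ℝ) ^ p * (c * n + 1 : ℝ) ^ p := by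
      rw [← mul_pow]
      exact pow_le_pow_left₀ (by positivity) h2 p
    have h6 : ρ₂ ^ ((n / N + 1) * N) ≤ ρ₂ ^ N * ρ₂ ^ n := by
      rw [← pow_add, add_comm N n]
      exact pow_le_pow_right₀ hρ₂1 hn'
    calc (c * (((n / N + 1 : ℕ) : ℝ) * N) + 1 : ℝ) ^ p * C₀ ^ p * ρ₂ ^ ((n / N + 1) * N)
        ≤ ((c * N + 1 : ℝ) ^ p * (c * n + 1 : ℝ) ^ p) * C₀ ^ p * (ρ₂ ^ N * ρ₂ ^ n) := by
          gcongr
      _ = _ := by ring
  filter_upwards [eventually_poly_le (show 0 < ρ₂ by linarith) h23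
    (C₀ ^ p * (c * N + 1 : ℝ) ^ p * ρ₂ ^ N) c p] with n hn
  exact (hall n).trans hn

/-- **The growth rate of a family of forms is the supremum of the growth rates of its members.** -/
theorem tendsto_WS [Infinite k] {V : Set (MvPolynomial σ k →ₗ[k] k)} {c : ℕ}
    (hV : ∀ φ ∈ V, IsForm φ c) (hV0 : ∀ φ ∈ V, φ ≠ 0) (hne : V.Nonempty) :
    Tendsto (fun N : ℕ => (WS V c N : ℝ) ^ (1 / (N : ℝ))) atTop (𝓝 (grS V c)) :=
  growth_limit (lt_of_lt_of_le zero_lt_one (one_le_grS hV hV0 hne)) c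
    (fun _ => Nat.cast_nonneg _) (fun _ hN => grS_pow_le hV hV0 hne hN)
    (fun _ hρ => WS_le_pow hV hV0 hne hρ)

omit [Fintype σ] in
theorem WS_congr {V V' : Set (MvPolynomial σ k →ₗ[k] k)} {N : ℕ}
    (h : Submodule.span k (prods V N) = Submodule.span k (prods V' N)) (c : ℕ) :
    WS V c N = WS V' c N := by
  have h1 : ∀ r, HasW (prods V N) (c * N) r ↔ HasW (prods V' N) (c * N) r := by
    intro r
    constructor
    · intro h2
      have h3 := h2.span
      rw [h] at h3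
      exact h3.subset Submodule.subset_span
    · intro h2
      have h3 := h2.span
      rw [← h] at h3
      exact h3.subset Submodule.subset_span
  rw [WS, WS]
  congr 1
  ext r
  exact h1 r

/-- **Closedness.** If for all large `N` the `N`-fold product of `φ` is a combination of
`N`-fold products of members of `V`, then the growth rate of `φ` is at most the supremum of the
growth rates of the members of `V`. -/
theorem gr_le_of_span [Infinite k] {V : Set (MvPolynomial σ k →ₗ[k] k)} {c : ℕ}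
    (hV : ∀ φ ∈ V, IsForm φ c) (hV0 : ∀ φ ∈ V, φ ≠ 0) (hne : V.Nonempty)
    {φ : MvPolynomial σ k →ₗ[k] k} (hφ : IsForm φ c) (hφ0 : φ ≠ 0)
    (h : ∀ᶠ N : ℕ in atTop, pw φ (Fin N) ∈ Submodule.span k (prods V N)) :
    gr φ c ≤ grS V c := by
  have hV' : ∀ ψ ∈ insert φ V, IsForm ψ c := by
    rintro ψ (rfl | h)
    exacts [hφ, hV ψ h]
  have hV0' : ∀ ψ ∈ insert φ V, ψ ≠ 0 := by
    rintro ψ (rfl | h)
    exacts [hφ0, hV0 ψ h]
  have h1 := tendsto_WS hV hV0 hne
  have h2 := tendsto_WS hV' hV0' ⟨φ, Set.mem_insert _ _⟩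
  have h3 : ∀ᶠ N : ℕ in atTop, (WS V c N : ℝ) ^ (1 / (N : ℝ)) =
      (WS (insert φ V) c N : ℝ) ^ (1 / (N : ℝ)) := by
    filter_upwards [h] with N hN
    rw [WS_congr (V := V) (V' := insert φ V) ?_ c]
    rw [prods, prods, Set.image_insert_eq]
    refine le_antisymm (Submodule.span_mono (Set.subset_insert _ _)) ?_
    rw [Submodule.span_le]
    rintro x (rfl | hx)
    · exact hN
    · exact Submodule.subset_span hx
  have h4 := tendsto_nhds_unique (h1.congr' h3) h2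
  rw [h4]
  exact gr_le_grS hV' (Set.mem_insert _ _)

end rate

end Pool.Agent.H23.UVS
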