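import Pool.Agent.H23.UVS.Words

/-!
# Common point sets for families of products
-/

open Module MvPolynomial Filter Topology

namespace Pool.Agent.H23.UVS

open Pool.Agent.H14.RF Pool.Agent.H2.WG

universe u

variable {k : Type u} [Field k]

/-- All functionals of the family `V` are, in degree `L`, linear combinations of evaluations at
`r` common points. -/
def HasW {τ : Type} (V : Set (MvPolynomial τ k →ₗ[k] k)) (L r : ℕ) : Prop :=
  ∃ a : Fin r → τ → k, ∀ ψ ∈ V, ∃ c : Fin r → k,
    ∀ g : MvPolynomial τ k, g.IsHomogeneous L → ψ g = ∑ s, c s * eval (a s) g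

theorem hasW_iff {τ : Type} {V : Set (MvPolynomial τ k →ₗ[k] k)} {L r : ℕ} :
    HasW V L r ↔ ∃ a : Fin r → τ → k, ∀ ψ ∈ V, ∃ c : Fin r → k, ∀ e : τ →₀ ℕ, e.degree = L →
      ψ (monomial e 1) = ∑ s, c s * e.prod fun q n => a s q ^ n := by
  constructor
  · rintro ⟨a, h⟩
    refine ⟨a, fun ψ hψ => ?_⟩
    obtain ⟨c, hc⟩ := h ψ hψ
    refine ⟨c, fun e he => ?_⟩
    rw [hc _ (isHomogeneous_monomial _ he)]
    refine Finset.sum_congr rfl fun s _ => ?_
    rw [eval_monomial, one_mul]
  · rintro ⟨a, h⟩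
    refine ⟨a, fun ψ hψ => ?_⟩
    obtain ⟨c, hc⟩ := h ψ hψ
    refine ⟨c, fun g hg => ?_⟩
    have h1 : ∀ e ∈ g.support, ψ (monomial e (coeff e g)) =
        ∑ s, c s * eval (a s) (monomial e (coeff e g)) := by
      intro e he
      have h2 : e.degree = L := by
        have := hg (mem_support_iff.mp he)
        rwa [Finsupp.degree_eq_weight_one]
      have h3 : (monomial e (coeff e g) : MvPolynomial τ k) = coeff e g • monomial e 1 := by
        rw [smul_monomial, smul_eq_mul, mul_one]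
      rw [h3, map_smul, hc e h2, smul_eq_mul, Finset.mul_sum]
      refine Finset.sum_congr rfl fun s _ => ?_
      rw [smul_eval, eval_monomial]
      ring
    conv_lhs => rw [← support_sum_monomial_coeff g]
    rw [map_sum, Finset.sum_congr rfl h1, Finset.sum_comm]
    refine Finset.sum_congr rfl fun s _ => ?_
    rw [← Finset.mul_sum, ← map_sum, support_sum_monomial_coeff]

theorem HasW.of_fintype {τ : Type} {V : Set (MvPolynomial τ k →ₗ[k] k)} {L r : ℕ} {ι : Type*}
    [Fintype ι] (hr : Fintype.card ι ≤ r) (a : ι → τ → k)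
    (h : ∀ ψ ∈ V, ∃ c : ι → k, ∀ e : τ →₀ ℕ, e.degree = L →
      ψ (monomial e 1) = ∑ s, c s * e.prod fun q n => a s q ^ n) : HasW V L r := by
  classical
  rw [hasW_iff]
  obtain ⟨f⟩ := Function.Embedding.nonempty_of_card_le
    (show Fintype.card ι ≤ Fintype.card (Fin r) by rwa [Fintype.card_fin])
  let a' : Fin r → τ → k := fun t => if h : ∃ s, f s = t then a h.choose else 0
  have ha' : ∀ s, a' (f s) = a s := by
    intro s
    have h1 : ∃ s', f s' = f s := ⟨s, rfl⟩
    have h2 : h1.choose = s := f.injective h1.choose_spec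
    simp only [a', dif_pos h1, h2]
  refine ⟨a', fun ψ hψ => ?_⟩
  obtain ⟨c, hc⟩ := h ψ hψ
  let c' : Fin r → k := fun t => if h : ∃ s, f s = t then c h.choose else 0
  have hc' : ∀ s, c' (f s) = c s := by
    intro s
    have h1 : ∃ s', f s' = f s := ⟨s, rfl⟩
    have h2 : h1.choose = s := f.injective h1.choose_spec
    simp only [c', dif_pos h1, h2]
  refine ⟨c', fun e he => ?_⟩
  rw [hc e he]
  have h3 : ∑ s, c s * (e.prod fun q n => a s q ^ n) =
      ∑ t ∈ Finset.univ.map f, c' t * e.prod fun q n => a' t q ^ n := by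
    rw [Finset.sum_map]
    refine Finset.sum_congr rfl fun s _ => ?_
    rw [hc', ha']
  rw [h3]
  refine Finset.sum_subset (Finset.subset_univ _) fun t _ ht => ?_
  have h4 : ¬ ∃ s, f s = t := by
    rintro ⟨s, rfl⟩
    exact ht (Finset.mem_map_of_mem f (Finset.mem_univ s))
  simp only [c', dif_neg h4, zero_mul]

theorem HasW.mono {τ : Type} {V : Set (MvPolynomial τ k →ₗ[k] k)} {L r r' : ℕ}
    (h : HasW V L r) (hr : r ≤ r') : HasW V L r' := by
  obtain ⟨a, h⟩ := hasW_iff.mp h
  exact HasW.of_fintype (by rwa [Fintype.card_fin]) a h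

theorem HasW.subset {τ : Type} {V V' : Set (MvPolynomial τ k →ₗ[k] k)} {L r : ℕ}
    (h : HasW V L r) (hV : V' ⊆ V) : HasW V' L r := by
  obtain ⟨a, h⟩ := h
  exact ⟨a, fun ψ hψ => h ψ (hV hψ)⟩

theorem HasW.span {τ : Type} {V : Set (MvPolynomial τ k →ₗ[k] k)} {L r : ℕ}
    (h : HasW V L r) : HasW (Submodule.span k V : Set (MvPolynomial τ k →ₗ[k] k)) L r := by
  obtain ⟨a, h⟩ := h
  refine ⟨a, fun ψ hψ => ?_⟩
  refine Submodule.span_induction (p := fun ψ _ => ∃ c : Fin r → k,
    ∀ g : MvPolynomial τ k, g.IsHomogeneous L → ψ g = ∑ s, c s * eval (a s) g) ?_ ?_ ?_ ?_ hψ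
  · intro ψ hψ
    exact h ψ hψ
  · exact ⟨0, fun g _ => by simp⟩
  · rintro x y _ _ ⟨c, hc⟩ ⟨d, hd⟩
    refine ⟨c + d, fun g hg => ?_⟩
    rw [LinearMap.add_apply, hc g hg, hd g hg, ← Finset.sum_add_distrib]
    refine Finset.sum_congr rfl fun s _ => ?_
    rw [Pi.add_apply, add_mul]
  · rintro t x _ ⟨c, hc⟩
    refine ⟨t • c, fun g hg => ?_⟩
    rw [LinearMap.smul_apply, hc g hg, smul_eq_mul, Finset.mul_sum]
    refine Finset.sum_congr rfl fun s _ => ?_
    rw [Pi.smul_apply, smul_eq_mul, mul_assoc]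

/-- A finite family of functionals with Waring decompositions has a common point set. -/
theorem HasW.of_family {τ : Type} {ι : Type*} [Fintype ι] (ψ : ι → (MvPolynomial τ k →ₗ[k] k))
    {L : ℕ} (r : ι → ℕ) (h : ∀ i, HasWaring (ψ i) L (r i)) :
    HasW (Set.range ψ) L (∑ i, r i) := by
  classical
  have h' := fun i => hasWaring_iff.mp (h i)
  choose c a hc using h'
  refine HasW.of_fintype (ι := Σ i, Fin (r i)) (by
    rw [Fintype.card_sigma]
    exact Finset.sum_le_sum fun i _ => by rw [Fintype.card_fin]) (fun s => a s.1 s.2) ?_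
  rintro _ ⟨i, rfl⟩
  refine ⟨fun s => if s.1 = i then c s.1 s.2 else 0, fun e he => ?_⟩
  rw [hc i e he, Fintype.sum_sigma, Finset.sum_eq_single i]
  · simp
  · intro j _ hj
    simp [hj]
  · intro h; exact absurd (Finset.mem_univ _) h

theorem HasW.waring {τ : Type} {V : Set (MvPolynomial τ k →ₗ[k] k)} {L r : ℕ}
    (h : HasW V L r) {ψ : MvPolynomial τ k →ₗ[k] k} (hψ : ψ ∈ V) : HasWaring ψ L r := by
  obtain ⟨a, h⟩ := h
  obtain ⟨c, hc⟩ := h ψ hψ
  exact ⟨c, a, hc⟩

theorem HasW.reindex {τ τ' : Type} [Fintype τ] [Fintype τ'] (E : τ' ≃ τ)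
    {V : Set (MvPolynomial τ k →ₗ[k] k)} {V' : Set (MvPolynomial τ' k →ₗ[k] k)}
    (h : ∀ ψ' ∈ V', ∃ ψ ∈ V, ∀ e : τ' →₀ ℕ, ψ' (monomial e 1) = ψ (monomial (e.mapDomain E) 1))
    {L r : ℕ} (hV : HasW V L r) : HasW V' L r := by
  obtain ⟨a, h1⟩ := hasW_iff.mp hV
  refine hasW_iff.mpr ⟨fun s q => a s (E q), fun ψ' hψ' => ?_⟩
  obtain ⟨ψ, hψ, h2⟩ := h ψ' hψ'
  obtain ⟨c, hc⟩ := h1 ψ hψ
  refine ⟨c, fun e he => ?_⟩
  have h3 : (e.mapDomain E).degree = L := by
    rw [← he, degree_eq_sum, degree_eq_sum, ← E.sum_comp]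
    refine Finset.sum_congr rfl fun q _ => ?_
    rw [Finsupp.mapDomain_equiv_apply, Equiv.symm_apply_apply]
  rw [h2, hc _ h3]
  refine Finset.sum_congr rfl fun s _ => ?_
  congr 1
  rw [Finsupp.prod_fintype _ _ fun q => pow_zero _, Finsupp.prod_fintype _ _ fun q => pow_zero _,
    ← E.prod_comp]
  refine Finset.prod_congr rfl fun q _ => ?_
  rw [Finsupp.mapDomain_equiv_apply, Equiv.symm_apply_apply]

section powers

variable {σ : Type} [Fintype σ]

/-- the products of `N` copies of the members of `V` -/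
def prods (V : Set (MvPolynomial σ k →ₗ[k] k)) (N : ℕ) :
    Set (MvPolynomial (Fin N × σ) k →ₗ[k] k) := (fun φ => pw φ (Fin N)) '' V

omit [Fintype σ] in
/-- If the `N`-fold product of `φ` is a combination of the `N`-fold products of the `G j`, then the
`M N`-fold product is a combination of words. -/
theorem pw_mem_words {p N : ℕ} (G : Fin p → (MvPolynomial σ k →ₗ[k] k))
    {φ : MvPolynomial σ k →ₗ[k] k}
    (h : pw φ (Fin N) ∈ Submodule.span k (Set.range fun j => pw (G j) (Fin N))) (M : ℕ) :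
    (pf fun _ : Fin M × Fin N => φ) ∈ Submodule.span k (Set.range fun w : Fin M → Fin p =>
      pf fun i : Fin M × Fin N => G (w i.1)) := by
  classical
  obtain ⟨lam, hlam⟩ := (Submodule.mem_span_range_iff_exists_fun k).mp h
  have h1 : (pf fun _ : Fin M × Fin N => φ) = ∑ w : Fin M → Fin p, (∏ m, lam (w m)) •
      pf fun i : Fin M × Fin N => G (w i.1) := by
    refine MvPolynomial.linearMap_ext fun e => LinearMap.ext_ring ?_
    simp only [LinearMap.coe_comp, Function.comp_apply, LinearMap.sum_apply, LinearMap.smul_apply,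
      smul_eq_mul, pf_monomial]
    rw [Fintype.prod_prod_type]
    have h2 : ∀ m : Fin M, ∏ n : Fin N, φ (monomial (e.curry (m, n)) 1) =
        ∑ j, lam j * ∏ n : Fin N, G j (monomial (e.curry (m, n)) 1) := by
      intro m
      let e' : (Fin N × σ) →₀ ℕ := e.comapDomain (fun q => ((m, q.1), q.2)) (by
        intro a _ b _ hab
        simp only [Prod.mk.injEq, true_and] at hab
        exact Prod.ext hab.1 hab.2)
      have he' : ∀ n, e'.curry n = e.curry (m, n) := by
        intro n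
        ext x
        rw [Finsupp.curry_apply, Finsupp.curry_apply]
        rfl
      have h3 := congrArg (fun f => f (monomial e' 1)) hlam
      simp only [LinearMap.sum_apply, LinearMap.smul_apply, smul_eq_mul, pw_monomial, he'] at h3
      exact h3.symm
    rw [Finset.prod_congr rfl fun m _ => h2 m, Finset.prod_univ_sum]
    simp only [Fintype.piFinset_univ]
    refine Finset.sum_congr rfl fun w _ => ?_
    rw [Finset.prod_mul_distrib, Fintype.prod_prod_type]
  rw [h1]
  exact Submodule.sum_mem _ fun w _ => Submodule.smul_mem _ _ (Submodule.subset_span ⟨w, rfl⟩)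

omit [Fintype σ] in
/-- reindexing a product of copies -/
theorem pf_reindex {J J' : Type} [Fintype J] [Fintype J'] (E : J' ≃ J)
    (φ : MvPolynomial σ k →ₗ[k] k) (e : (J' × σ) →₀ ℕ) :
    pw φ J' (monomial e 1) = pw φ J (monomial (e.mapDomain (E.prodCongr (Equiv.refl σ))) 1) := by
  rw [pw_monomial, pw_monomial, ← E.prod_comp]
  refine Finset.prod_congr rfl fun i _ => ?_
  have h1 : (e.mapDomain (E.prodCongr (Equiv.refl σ))).curry (E i) = e.curry i := by
    ext x
    rw [Finsupp.curry_apply, Finsupp.curry_apply, Finsupp.mapDomain_equiv_apply]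
    simp
  rw [h1]

/-- **The word bound.** -/
theorem hasW_words [Infinite k] {p c N : ℕ} (G : Fin p → (MvPolynomial σ k →ₗ[k] k))
    (hG : ∀ j, IsForm (G j) c) {C ρ : ℝ}
    (hW : ∀ j n, (Wn (G j) c n : ℝ) ≤ C * ρ ^ n) {V : Set (MvPolynomial σ k →ₗ[k] k)}
    (hV : ∀ φ ∈ V, pw φ (Fin N) ∈ Submodule.span k (Set.range fun j => pw (G j) (Fin N)))
    (M : ℕ) : ∃ r : ℕ, HasW (prods V (M * N)) (c * (M * N)) r ∧
      (r : ℝ) ≤ (p : ℝ) ^ M * ((c * (M * N) + 1 : ℝ) ^ p * (C ^ p * ρ ^ (M * N))) := by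
  classical
  have hword : ∀ w : Fin M → Fin p, HasWaring (pf fun i : Fin M × Fin N => G (w i.1))
      (c * (M * N)) ((c * (M * N) + 1) ^ p *
        ∏ j, Wn (G j) c (Fintype.card {i : Fin M × Fin N // w i.1 = j})) := by
    intro w
    have h1 := hasWaring_word G hG (fun i : Fin M × Fin N => w i.1)
      (fun j => Wn (G j) c (Fintype.card {i : Fin M × Fin N // w i.1 = j})) ?_
    · rwa [Fintype.card_prod, Fintype.card_fin, Fintype.card_fin] at h1
    · intro j
      have E := Fintype.equivFin {i : Fin M × Fin N // w i.1 = j}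
      exact hasWaring_reindex (E.prodCongr (Equiv.refl σ)) (fun e => pf_reindex E (G j) e)
        (hasWaring_rank (pw (G j) _) _)
  have h2 := (HasW.of_family (fun w : Fin M → Fin p =>
    pf fun i : Fin M × Fin N => G (w i.1)) _ hword).span
  refine ⟨_, h2.reindex (V' := prods V (M * N))
    (finProdFinEquiv.symm.prodCongr (Equiv.refl σ)) ?_, ?_⟩
  · rintro _ ⟨φ, hφ, rfl⟩
    exact ⟨_, pw_mem_words G (hV φ hφ) M, fun e => pf_reindex finProdFinEquiv.symm φ e⟩
  · push_cast
    have h3 : ∀ w : Fin M → Fin p, (c * (M * N) + 1 : ℝ) ^ p *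
        ∏ j, (Wn (G j) c (Fintype.card {i : Fin M × Fin N // w i.1 = j}) : ℝ) ≤
        (c * (M * N) + 1 : ℝ) ^ p * (C ^ p * ρ ^ (M * N)) := by
      intro w
      refine mul_le_mul_of_nonneg_left ?_ (by positivity)
      calc ∏ j, (Wn (G j) c (Fintype.card {i : Fin M × Fin N // w i.1 = j}) : ℝ)
          ≤ ∏ j : Fin p, (C * ρ ^ (Fintype.card {i : Fin M × Fin N // w i.1 = j})) :=
            Finset.prod_le_prod (fun j _ => Nat.cast_nonneg _) fun j _ => hW j _
        _ = C ^ p * ρ ^ (M * N) := by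
            rw [Finset.prod_mul_distrib, Finset.prod_const, Finset.card_univ, Fintype.card_fin,
              Finset.prod_pow_eq_pow_sum]
            congr 2
            have h4 := Fintype.card_sigma (α := fun j => {i : Fin M × Fin N // w i.1 = j})
            rw [← h4, Fintype.card_congr (Equiv.sigmaFiberEquiv fun i : Fin M × Fin N => w i.1),
              Fintype.card_prod, Fintype.card_fin, Fintype.card_fin]
    refine (Finset.sum_le_sum fun w _ => h3 w).trans (le_of_eq ?_)
    rw [Finset.sum_const, Finset.card_univ, Fintype.card_fun, Fintype.card_fin, Fintype.card_fin,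
      nsmul_eq_mul]
    push_cast
    ring

end powers

end Pool.Agent.H23.UVS
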