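import Pool.Agent.H2.WG.Growth

/-!
# Words: Waring ranks of products of forms with few different factors
-/

open Module MvPolynomial

namespace Pool.Agent.H23.UVS

open Pool.Agent.H14.RF Pool.Agent.H2.WG

universe u

section weights

variable (k : Type*) [Field k]

theorem exists_weights_at [Infinite k] (L : ℕ) (d : ℕ) (hd : d ≤ L) : ∃ lam κ : Fin (L + 1) → k,
    ∀ j, j ≤ L → ∑ i, κ i * lam i ^ j = if j = d then 1 else 0 := by
  classical
  let lam : Fin (L + 1) → k := fun i => Infinite.natEmbedding k i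
  have hlam : Function.Injective lam := fun i j h =>
    Fin.ext ((Infinite.natEmbedding k).injective h)
  let V : Matrix (Fin (L + 1)) (Fin (L + 1)) k := Matrix.vandermonde lam
  have hV : IsUnit V.det := isUnit_iff_ne_zero.mpr (Matrix.det_vandermonde_ne_zero_iff.mpr hlam)
  let d' : Fin (L + 1) := ⟨d, Nat.lt_succ_of_le hd⟩
  let κ : Fin (L + 1) → k := Matrix.vecMul (Pi.single d' 1) V⁻¹
  refine ⟨lam, κ, fun j hj => ?_⟩
  have h1 : Matrix.vecMul κ V = Pi.single d' 1 := by
    simp only [κ]
    rw [Matrix.vecMul_vecMul, Matrix.nonsing_inv_mul _ hV, Matrix.vecMul_one]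
  have h2 := congrFun h1 ⟨j, Nat.lt_succ_of_le hj⟩
  simp only [Matrix.vecMul, dotProduct, V, Matrix.vandermonde_apply] at h2
  rw [h2, Pi.single_apply]
  simp only [Fin.ext_iff, d']

end weights

variable {k : Type u} [Field k] {σ : Type}

/-- The product of the functionals `ψ j` in disjoint sets of variables. -/
noncomputable def pf {J : Type} [Fintype J] (ψ : J → (MvPolynomial σ k →ₗ[k] k)) :
    MvPolynomial (J × σ) k →ₗ[k] k :=
  (basisMonomials (J × σ) k).constr k fun e => ∏ j, ψ j (monomial (e.curry j) 1)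

theorem pf_monomial {J : Type} [Fintype J] (ψ : J → (MvPolynomial σ k →ₗ[k] k))
    (e : (J × σ) →₀ ℕ) : pf ψ (monomial e 1) = ∏ j, ψ j (monomial (e.curry j) 1) := by
  have h := (basisMonomials (J × σ) k).constr_basis k
    (fun e => ∏ j, ψ j (monomial (e.curry j) 1)) e
  rwa [coe_basisMonomials] at h

theorem pf_const {J : Type} [Fintype J] (φ : MvPolynomial σ k →ₗ[k] k) :
    pf (fun _ : J => φ) = pw φ J := rfl

variable [Fintype σ]

/-- the restriction of an exponent to a set of blocks -/
noncomputable def res {J : Type} {p : ℕ} (w : J → Fin p) (j : Fin p) (e : (J × σ) →₀ ℕ) :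
    ({i // w i = j} × σ) →₀ ℕ :=
  e.comapDomain (fun q => (q.1.1, q.2)) (by
    intro a _ b _ h
    simp only [Prod.mk.injEq] at h
    exact Prod.ext (Subtype.ext h.1) h.2)

omit [Fintype σ] in
theorem res_apply {J : Type} {p : ℕ} (w : J → Fin p) (j : Fin p) (e : (J × σ) →₀ ℕ)
    (q : {i // w i = j} × σ) : res w j e q = e (q.1.1, q.2) := rfl

omit [Fintype σ] in
theorem res_curry {J : Type} {p : ℕ} (w : J → Fin p) (j : Fin p) (e : (J × σ) →₀ ℕ)
    (i : {i // w i = j}) : (res w j e).curry i = e.curry i.1 := by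
  ext x
  rw [Finsupp.curry_apply, Finsupp.curry_apply, res_apply]

theorem res_degree {J : Type} [Fintype J] {p : ℕ} (w : J → Fin p) (j : Fin p)
    (e : (J × σ) →₀ ℕ) :
    (res w j e).degree = ∑ i : {i // w i = j}, (e.curry i.1).degree := by
  classical
  rw [degree_curry]
  exact Finset.sum_congr rfl fun i _ => by rw [res_curry]

theorem prod_fiber {J : Type} [Fintype J] {p : ℕ} (w : J → Fin p) {α : Type*} [CommMonoid α]
    (f : J → α) : ∏ i, f i = ∏ j, ∏ i : {i // w i = j}, f i.1 := by
  classical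
  rw [← Finset.prod_fiberwise (s := Finset.univ) (g := w)]
  refine Finset.prod_congr rfl fun j _ => ?_
  rw [Finset.prod_subtype (Finset.univ.filter fun i => w i = j) (p := fun i => w i = j)]
  intro x
  simp

/-- **Words.** -/
theorem hasWaring_word [Infinite k] {J : Type} [Fintype J] {p c : ℕ}
    (G : Fin p → (MvPolynomial σ k →ₗ[k] k)) (hG : ∀ j, IsForm (G j) c) (w : J → Fin p)
    (r : Fin p → ℕ)
    (hr : ∀ j, HasWaring (pw (G j) {i // w i = j}) (c * Fintype.card {i // w i = j}) (r j)) :
    HasWaring (pf fun i => G (w i)) (c * Fintype.card J)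
      ((c * Fintype.card J + 1) ^ p * ∏ j, r j) := by
  classical
  set L := c * Fintype.card J with hL
  have hr' := fun j => hasWaring_iff.mp (hr j)
  choose co a ha using hr'
  have hm : ∀ j, c * Fintype.card {i // w i = j} ≤ L := fun j =>
    Nat.mul_le_mul_left _ (Fintype.card_subtype_le _)
  choose lam κ hκ using fun j => exists_weights_at k L _ (hm j)
  refine HasWaring.of_fintype (ι := (Fin p → Fin (L + 1)) × (∀ j, Fin (r j))) ?_
    (fun s => (∏ j, κ j (s.1 j)) * ∏ j, co j (s.2 j))
    (fun s q => lam (w q.1) (s.1 (w q.1)) * a (w q.1) (s.2 (w q.1)) (⟨q.1, rfl⟩, q.2)) ?_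
  · rw [Fintype.card_prod, Fintype.card_fun, Fintype.card_pi]
    simp only [Fintype.card_fin]
    exact le_rfl
  intro e he
  -- the value of one term
  have hterm : ∀ s : (Fin p → Fin (L + 1)) × (∀ j, Fin (r j)),
      (e.prod fun q n => (lam (w q.1) (s.1 (w q.1)) *
        a (w q.1) (s.2 (w q.1)) (⟨q.1, rfl⟩, q.2)) ^ n) =
      ∏ j, (lam j (s.1 j) ^ (res w j e).degree * ev (a j (s.2 j)) (res w j e)) := by
    intro s
    rw [Finsupp.prod_fintype _ _ fun q => pow_zero _, Fintype.prod_prod_type, prod_fiber w]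
    refine Finset.prod_congr rfl fun j _ => ?_
    rw [ev_fintype, degree_eq_sum, ← Finset.prod_pow_eq_pow_sum, ← Finset.prod_mul_distrib,
      Fintype.prod_prod_type]
    refine Finset.prod_congr rfl fun i _ => Finset.prod_congr rfl fun x _ => ?_
    obtain ⟨i, rfl⟩ := i
    rw [res_apply, mul_pow]
  have h1 : ∑ s : (Fin p → Fin (L + 1)) × (∀ j, Fin (r j)),
      ((∏ j, κ j (s.1 j)) * ∏ j, co j (s.2 j)) *
      (e.prod fun q n => (lam (w q.1) (s.1 (w q.1)) *
        a (w q.1) (s.2 (w q.1)) (⟨q.1, rfl⟩, q.2)) ^ n) =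
      ∏ j, ((∑ i, κ j i * lam j i ^ (res w j e).degree) *
        ∑ t, co j t * ev (a j t) (res w j e)) := by
    rw [Finset.prod_mul_distrib, Finset.prod_univ_sum, Finset.prod_univ_sum,
      Finset.sum_mul_sum, Fintype.sum_prod_type]
    simp only [Fintype.piFinset_univ]
    refine Finset.sum_congr rfl fun l _ => Finset.sum_congr rfl fun t _ => ?_
    rw [hterm (l, t), Finset.prod_mul_distrib, Finset.prod_mul_distrib, Finset.prod_mul_distrib]
    ring
  rw [h1, pf_monomial]
  by_cases hall : ∀ i, (e.curry i).degree = c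
  · rw [prod_fiber w]
    refine Finset.prod_congr rfl fun j _ => ?_
    have hdeg : (res w j e).degree = c * Fintype.card {i // w i = j} := by
      rw [res_degree, Finset.sum_congr rfl fun i _ => hall i.1, Finset.sum_const,
        Finset.card_univ, smul_eq_mul, mul_comm]
    have h2 := ha j (res w j e) hdeg
    rw [pw_monomial] at h2
    have h3 : ∏ i : {i // w i = j}, G (w i.1) (monomial (e.curry i.1) 1) =
        ∏ i : {i // w i = j}, G j (monomial ((res w j e).curry i) 1) := by
      refine Finset.prod_congr rfl fun i _ => ?_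
      rw [res_curry, i.2]
    rw [h3, h2, hκ j _ (hdeg.le.trans (hm j)), if_pos hdeg, one_mul]
    rfl
  · push Not at hall
    obtain ⟨i₀, hi₀⟩ := hall
    rw [Finset.prod_eq_zero (Finset.mem_univ i₀) (hG _ _ hi₀)]
    symm
    by_cases hd : ∀ j, (res w j e).degree = c * Fintype.card {i // w i = j}
    · refine Finset.prod_eq_zero (Finset.mem_univ (w i₀)) ?_
      have h2 := ha (w i₀) (res w (w i₀) e) (hd (w i₀))
      rw [pw_monomial, Finset.prod_eq_zero (Finset.mem_univ (⟨i₀, rfl⟩ : {i // w i = w i₀}))] at h2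
      · have h4 : ∑ t, co (w i₀) t * ev (a (w i₀) t) (res w (w i₀) e) = 0 := h2.symm
        rw [h4, mul_zero]
      · rw [res_curry]
        exact hG _ _ hi₀
    · push Not at hd
      obtain ⟨j, hj⟩ := hd
      refine Finset.prod_eq_zero (Finset.mem_univ j) ?_
      have hle : (res w j e).degree ≤ L := by
        rw [res_degree, ← he, degree_curry e,
          ← Finset.sum_subtype (Finset.univ.filter fun i => w i = j) (p := fun i => w i = j)
            (by intro x; simp) (fun i => (e.curry i).degree)]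
        exact Finset.sum_le_sum_of_subset (Finset.filter_subset _ _)
      rw [hκ j _ hle, if_neg hj, zero_mul]

end Pool.Agent.H23.UVS
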